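import Pool.Agent.H24.Ku.Twist

/-!
# Twists of coherent sheaves
-/

open CategoryTheory CategoryTheory.Limits MvPolynomial

noncomputable section

namespace H24.Ku

variable (X : ProjData)

instance : PreservesFiniteLimits (sheaf X) :=
  ObjectProperty.SerreClassLocalization.preservesFiniteLimits (sheaf X) (finLen X)

instance : PreservesFiniteColimits (sheaf X) :=
  ObjectProperty.SerreClassLocalization.preservesFiniteColimits (sheaf X) (finLen X)

lemma isZero_sheaf_iff (M : Gr X) : IsZero ((sheaf X).obj M) ↔ finLen X M :=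
  ObjectProperty.SerreClassLocalization.isZero_obj_iff (sheaf X) (finLen X) M

lemma isIso_sheaf_map_iff {M N : Gr X} (f : M ⟶ N) :
    IsIso ((sheaf X).map f) ↔ (finLen X).isoModSerre f :=
  ObjectProperty.SerreClassLocalization.isIso_map_iff (sheaf X) (finLen X) f

lemma finLen_twist (d : ℤ) (M : Gr X) : finLen X ((twist X d).obj M) ↔ finLen X M := by
  constructor
  · rintro ⟨n₀, h⟩
    refine ⟨n₀ + d, fun n hn => ?_⟩
    have := h ⟨n.deg - d⟩ (by change n₀ ≤ n.deg - d; omega)
    have h2 : (⟨n.deg - d + d⟩ : Deg X) = n := by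
      cases n
      simp
    exact h2 ▸ this
  · rintro ⟨n₀, h⟩
    exact ⟨n₀ - d, fun n hn => h ⟨n.deg + d⟩ (by change n₀ ≤ n.deg + d; omega)⟩

lemma twist_isInvertedBy (d : ℤ) :
    (finLen X).isoModSerre.IsInvertedBy (twist X d ⋙ sheaf X) := by
  rw [ObjectProperty.isoModSerre_isInvertedBy_iff]
  intro M hM
  exact (isZero_sheaf_iff X _).2 ((finLen_twist X d M).2 hM)

/-- The twist `F ↦ F(d)` of coherent sheaves. -/
def cohTwist (d : ℤ) : Coh X ⥤ Coh X :=
  Localization.lift (twist X d ⋙ sheaf X) (twist_isInvertedBy X d) (sheaf X)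

/-- The twist of the sheaf of a graded module is the sheaf of the twisted module. -/
def cohTwistIso (d : ℤ) : sheaf X ⋙ cohTwist X d ≅ twist X d ⋙ sheaf X :=
  Localization.fac _ _ _

instance (d : ℤ) : Localization.Lifting (sheaf X) (finLen X).isoModSerre (twist X d ⋙ sheaf X)
    (cohTwist X d) := ⟨cohTwistIso X d⟩

instance (d : ℤ) : (cohTwist X d).Additive :=
  (Localization.functor_additive_iff (sheaf X) (finLen X).isoModSerre (cohTwist X d)).2
    (Functor.additive_of_iso (cohTwistIso X d).symm)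

instance (d : ℤ) : (cohTwist X d).Linear ℂ :=
  (Localization.functor_linear_iff (sheaf X) (finLen X).isoModSerre ℂ (twist X d ⋙ sheaf X)
    (cohTwist X d)).1 inferInstance

/-- `F(d)(e) = F(f)` if `d + e = f`. -/
def cohTwistAdd (d e f : ℤ) (h : d + e = f) : cohTwist X d ⋙ cohTwist X e ≅ cohTwist X f :=
  Localization.liftNatIso (sheaf X) (finLen X).isoModSerre
    (sheaf X ⋙ cohTwist X d ⋙ cohTwist X e) (sheaf X ⋙ cohTwist X f) _ _
    ((Functor.associator _ _ _).symm ≪≫ Functor.isoWhiskerRight (cohTwistIso X d) _ ≪≫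
      Functor.associator _ _ _ ≪≫ Functor.isoWhiskerLeft (twist X d) (cohTwistIso X e) ≪≫
      (Functor.associator _ _ _).symm ≪≫
      Functor.isoWhiskerRight (twistAdd X d e f h) (sheaf X) ≪≫ (cohTwistIso X f).symm)

/-- `F(0) = F`. -/
def cohTwistZero : cohTwist X 0 ≅ 𝟭 (Coh X) :=
  Localization.liftNatIso (sheaf X) (finLen X).isoModSerre
    (sheaf X ⋙ cohTwist X 0) (sheaf X ⋙ 𝟭 _) _ _
    (cohTwistIso X 0 ≪≫ Functor.isoWhiskerRight (twistZero X) (sheaf X) ≪≫
      Functor.leftUnitor _ ≪≫ (Functor.rightUnitor _).symm)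

/-- The twist by `d` is an equivalence of categories. -/
def cohTwistEquiv (d : ℤ) : Coh X ≌ Coh X :=
  CategoryTheory.Equivalence.mk (cohTwist X d) (cohTwist X (-d))
    ((cohTwistAdd X d (-d) 0 (by simp)) ≪≫ cohTwistZero X).symm
    ((cohTwistAdd X (-d) d 0 (by simp)) ≪≫ cohTwistZero X)

instance (d : ℤ) : (cohTwist X d).IsEquivalence := (cohTwistEquiv X d).isEquivalence_functor

example (d : ℤ) : PreservesFiniteLimits (cohTwist X d) := inferInstance

example (d : ℤ) : PreservesFiniteColimits (cohTwist X d) := inferInstance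

/-- Multiplication by the homogeneous element `s` of degree `d` on coherent sheaves:
`F ⟶ F(d)`. -/
def cohMul (d : ℤ) (s : X.piece d) : 𝟭 (Coh X) ⟶ cohTwist X d :=
  Localization.liftNatTrans (sheaf X) (finLen X).isoModSerre (sheaf X ⋙ 𝟭 _)
    (sheaf X ⋙ cohTwist X d) _ _
    ((Functor.rightUnitor _).hom ≫ (Functor.leftUnitor _).inv ≫
      Functor.whiskerRight (mulMap X d s) (sheaf X) ≫ (cohTwistIso X d).inv)

lemma cohMul_app_sheaf (d : ℤ) (s : X.piece d) (M : Gr X) :
    (cohMul X d s).app ((sheaf X).obj M) =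
      (sheaf X).map ((mulMap X d s).app M) ≫ (cohTwistIso X d).inv.app M := by
  simp [cohMul]

/-- `𝒪(n)(d) = 𝒪(n + d)`. -/
def cohTwistO (n d e : ℤ) (h : n + d = e) : (cohTwist X d).obj (O X n) ≅ O X e :=
  (cohTwistIso X d).app (free X n) ≪≫ (sheaf X).mapIso (twistFree X n d e h)

end H24.Ku
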