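import Pool.Agent.H24.Ku.GradedModules

/-!
# Evaluation functors on `Gr X`

`ev X m : Gr X ⥤ ModuleCat ℂ` is the exact functor `M ↦ M_m`. These functors detect zero objects,
monomorphisms, epimorphisms, isomorphisms and exactness.
-/

open CategoryTheory CategoryTheory.Limits MvPolynomial

noncomputable section

namespace H24.Ku

variable (X : ProjData)

/-- The functor `M ↦ M_m` from graded modules to vector spaces. -/
abbrev ev (m : ℤ) : Gr X ⥤ ModuleCat.{0} ℂ := evalDeg X ⟨m⟩

instance (m : ℤ) : (ev X m).Linear ℂ where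

variable {X}

lemma isZero_iff_ev (M : Gr X) : IsZero M ↔ ∀ m : ℤ, IsZero ((ev X m).obj M) := by
  refine ⟨fun h m => (ev X m).map_isZero h, fun h => ?_⟩
  rw [IsZero.iff_id_eq_zero]
  ext ⟨m⟩ : 3
  exact (h m).eq_of_src _ _

lemma isZero_iff_subsingleton (M : Gr X) : IsZero M ↔ ∀ m : Deg X, Subsingleton (M.obj.obj m) := by
  rw [isZero_iff_ev]
  exact ⟨fun h m => ModuleCat.isZero_iff_subsingleton.1 (h m.deg),
    fun h m => ModuleCat.isZero_iff_subsingleton.2 (h ⟨m⟩)⟩

lemma mono_iff_ev {M N : Gr X} (f : M ⟶ N) : Mono f ↔ ∀ m : ℤ, Mono ((ev X m).map f) := by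
  refine ⟨fun h m => inferInstance, fun h => ?_⟩
  refine (grProp X).ι.mono_of_mono_map ?_
  rw [NatTrans.mono_iff_mono_app]
  exact fun m => h m.deg

lemma epi_iff_ev {M N : Gr X} (f : M ⟶ N) : Epi f ↔ ∀ m : ℤ, Epi ((ev X m).map f) := by
  refine ⟨fun h m => inferInstance, fun h => ?_⟩
  refine (grProp X).ι.epi_of_epi_map ?_
  rw [NatTrans.epi_iff_epi_app]
  exact fun m => h m.deg

lemma mono_iff_injective {M N : Gr X} (f : M ⟶ N) :
    Mono f ↔ ∀ m : Deg X, Function.Injective (f.hom.app m).hom := by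
  rw [mono_iff_ev]
  exact ⟨fun h m => (ModuleCat.mono_iff_injective _).1 (h m.deg),
    fun h m => (ModuleCat.mono_iff_injective _).2 (h ⟨m⟩)⟩

lemma epi_iff_surjective {M N : Gr X} (f : M ⟶ N) :
    Epi f ↔ ∀ m : Deg X, Function.Surjective (f.hom.app m).hom := by
  rw [epi_iff_ev]
  exact ⟨fun h m => (ModuleCat.epi_iff_surjective _).1 (h m.deg),
    fun h m => (ModuleCat.epi_iff_surjective _).2 (h ⟨m⟩)⟩

lemma isIso_iff_ev {M N : Gr X} (f : M ⟶ N) : IsIso f ↔ ∀ m : ℤ, IsIso ((ev X m).map f) := by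
  refine ⟨fun h m => inferInstance, fun h => ?_⟩
  have h1 : Mono f := (mono_iff_ev f).2 fun m => inferInstance
  have h2 : Epi f := (epi_iff_ev f).2 fun m => inferInstance
  exact isIso_of_mono_of_epi f

lemma isIso_iff_bijective {M N : Gr X} (f : M ⟶ N) :
    IsIso f ↔ ∀ m : Deg X, Function.Bijective (f.hom.app m).hom := by
  constructor
  · intro h m
    exact ⟨(mono_iff_injective f).1 inferInstance m, (epi_iff_surjective f).1 inferInstance m⟩
  · intro h
    have h1 : Mono f := (mono_iff_injective f).2 fun m => (h m).1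
    have h2 : Epi f := (epi_iff_surjective f).2 fun m => (h m).2
    exact isIso_of_mono_of_epi f

lemma exact_iff_ev (S : ShortComplex (Gr X)) :
    S.Exact ↔ ∀ m : ℤ, (S.map (ev X m)).Exact := by
  refine ⟨fun h m => h.map _, fun h => ?_⟩
  rw [ShortComplex.exact_iff_isZero_homology, isZero_iff_ev]
  intro m
  have := (ShortComplex.exact_iff_isZero_homology _).1 (h m)
  exact this.of_iso (S.mapHomologyIso (ev X m)).symm

lemma exact_iff (S : ShortComplex (Gr X)) :
    S.Exact ↔ ∀ (m : Deg X) (x : S.X₂.obj.obj m), (S.g.hom.app m).hom x = 0 →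
      ∃ y : S.X₁.obj.obj m, (S.f.hom.app m).hom y = x := by
  rw [exact_iff_ev]
  constructor
  · intro h m x hx
    exact ((ShortComplex.moduleCat_exact_iff _).1 (h m.deg)) x hx
  · intro h m
    exact (ShortComplex.moduleCat_exact_iff _).2 fun x hx => h ⟨m⟩ x hx

lemma shortExact_iff_ev (S : ShortComplex (Gr X)) :
    S.ShortExact ↔ ∀ m : ℤ, (S.map (ev X m)).ShortExact := by
  constructor
  · intro h m
    exact h.map_of_exact (ev X m)
  · intro h
    refine { exact := (exact_iff_ev S).2 fun m => (h m).exact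
             mono_f := (mono_iff_ev _).2 fun m => (h m).mono_f
             epi_g := (epi_iff_ev _).2 fun m => (h m).epi_g }

/-- A complex is acyclic if it is exact in each internal degree. -/
lemma acyclic_iff (K : CochainComplex (Gr X) ℤ) :
    K.Acyclic ↔ ∀ (n : ℤ) (m : Deg X) (x : (K.X n).obj.obj m),
      ((K.d n (n + 1)).hom.app m).hom x = 0 →
      ∃ y : (K.X (n - 1)).obj.obj m, ((K.d (n - 1) n).hom.app m).hom y = x := by
  constructor
  · intro h n m x hx
    have h1 := (K.exactAt_iff' (n - 1) n (n + 1) (by simp) (by simp)).1 (h n)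
    exact (exact_iff _).1 h1 m x hx
  · intro h n
    rw [K.exactAt_iff' (n - 1) n (n + 1) (by simp) (by simp), exact_iff]
    exact fun m x hx => h n m x hx

end H24.Ku
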