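import Pool.Agent.H24.Ku.Grading

/-!
# Closure properties of finitely generated graded modules
-/

open CategoryTheory CategoryTheory.Limits MvPolynomial

noncomputable section

namespace H24.Ku

/-- Projection of a polynomial to its part of degree `d ∈ ℤ`. -/
def cp {N : ℕ} (d : ℤ) (p : Pol N) : Pol N := if 0 ≤ d then homogeneousComponent d.toNat p else 0

lemma coeff_cp {N : ℕ} (d : ℤ) (p : Pol N) (m : Fin (N + 1) →₀ ℕ) :
    (cp d p).coeff m = if (m.degree : ℤ) = d then p.coeff m else 0 := by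
  unfold cp
  split_ifs with h1 h2 h2
  · rw [coeff_homogeneousComponent, if_pos (by omega)]
  · rw [coeff_homogeneousComponent, if_neg (by omega)]
  · omega
  · simp

lemma cp_mem {N : ℕ} (d : ℤ) (p : Pol N) : cp d p ∈ homog N d := by
  intro m hm
  rw [mem_support_iff, coeff_cp] at hm
  by_contra h
  exact hm (if_neg h)

lemma mem_homog_iff {N : ℕ} {d : ℤ} {p : Pol N} : p ∈ homog N d ↔ ∀ m, p.coeff m ≠ 0 →
    (m.degree : ℤ) = d :=
  ⟨fun h m hm => h m (mem_support_iff.2 hm), fun h m hm => h m (mem_support_iff.1 hm)⟩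

lemma cp_eq_self {N : ℕ} {d : ℤ} {p : Pol N} (hp : p ∈ homog N d) : cp d p = p := by
  ext m
  rw [coeff_cp]
  split_ifs with h
  · rfl
  · by_contra h'
    exact h (mem_homog_iff.1 hp m (Ne.symm h'))

lemma cp_eq_zero {N : ℕ} {d e : ℤ} {p : Pol N} (hp : p ∈ homog N e) (h : e ≠ d) : cp d p = 0 := by
  ext m
  rw [coeff_cp]
  split_ifs with h1
  · by_contra h'
    exact h ((mem_homog_iff.1 hp m h').symm.trans h1)
  · simp

lemma cp_sum {N : ℕ} {ι : Type*} (s : Finset ι) (d : ℤ) (p : ι → Pol N) :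
    cp d (∑ i ∈ s, p i) = ∑ i ∈ s, cp d (p i) := by
  unfold cp
  split_ifs
  · exact map_sum _ _ _
  · simp

lemma homogeneousComponent_mem_homog {N : ℕ} (i : ℕ) (p : Pol N) :
    homogeneousComponent i p ∈ homog N i := by
  rw [mem_homog_iff]
  intro m hm
  rw [coeff_homogeneousComponent] at hm
  by_contra h
  exact hm (if_neg (by omega))

/-- Taking the degree `d` part of a product with a homogeneous factor. -/
lemma cp_mul {N : ℕ} {d e : ℤ} (r : Pol N) {t : Pol N} (ht : t ∈ homog N e) :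
    cp d (r * t) = cp (d - e) r * t := by
  rw [← sum_homogeneousComponent r, Finset.sum_mul, cp_sum, cp_sum, Finset.sum_mul]
  refine Finset.sum_congr rfl fun i _ => ?_
  have h1 := mul_mem_homog (homogeneousComponent_mem_homog i r) ht
  by_cases h : (i : ℤ) + e = d
  · rw [cp_eq_self (h ▸ h1), show d - e = (i : ℤ) by omega,
      cp_eq_self (homogeneousComponent_mem_homog i r)]
  · rw [cp_eq_zero h1 h, cp_eq_zero (homogeneousComponent_mem_homog i r) (by omega), zero_mul]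

/-- Graded Hilbert basis theorem: a set of homogeneous vectors in the graded free module
`⊕ P(-g i)` is generated, with homogeneous coefficients, by finitely many of its elements. -/
lemma exists_homog_generators {N k : ℕ} (g : Fin k → ℤ) (S : Set (ℤ × (Fin k → Pol N)))
    (hS : ∀ s ∈ S, ∀ i, s.2 i ∈ homog N (s.1 - g i)) :
    ∃ (r : ℕ) (t : Fin r → ℤ × (Fin k → Pol N)), (∀ j, t j ∈ S) ∧ ∀ s ∈ S,
      ∃ a : Fin r → Pol N, (∀ j, a j ∈ homog N (s.1 - (t j).1)) ∧
        ∀ i, s.2 i = ∑ j, a j * (t j).2 i := by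
  classical
  have hfg : (Submodule.span (Pol N) (Prod.snd '' S)).FG := IsNoetherian.noetherian _
  obtain ⟨T, hTS, hT⟩ := (Submodule.fg_span_iff_fg_span_finset_subset _).1 hfg
  choose! σ hσS hσ using fun (v : Fin k → Pol N) (hv : v ∈ T) => hTS hv
  let e := T.equivFin
  refine ⟨T.card, fun j => σ (e.symm j).1, fun j => hσS _ (e.symm j).2, fun s hs => ?_⟩
  have hmem : s.2 ∈ Submodule.span (Pol N) (T : Set (Fin k → Pol N)) := by
    rw [← hT]
    exact Submodule.subset_span ⟨s, hs, rfl⟩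
  obtain ⟨c, -, hc⟩ := Submodule.mem_span_finset.1 hmem
  refine ⟨fun j => cp (s.1 - (σ (e.symm j).1).1) (c (e.symm j).1), fun j => cp_mem _ _,
    fun i => ?_⟩
  have h1 : s.2 i = ∑ v ∈ T, c v * v i := by
    rw [← hc]
    simp
  rw [← cp_eq_self (hS s hs i), h1, cp_sum, ← Finset.sum_coe_sort T
    (fun v => cp (s.1 - g i) (c v * v i))]
  rw [← Equiv.sum_comp e.symm]
  refine Finset.sum_congr rfl fun j _ => ?_
  have h2 : (σ (e.symm j).1).2 = (e.symm j).1 := hσ _ (e.symm j).2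
  have h3 := hS _ (hσS _ (e.symm j).2) i
  rw [h2] at h3
  rw [cp_mul _ h3, h2]
  congr 2
  omega

variable {X : ProjData}

/-- The morphism `m ⟶ n` of `Deg X` given by a homogeneous polynomial of degree `n - m`. -/
def Deg.ofPol {m n : Deg X} (p : Pol X.N) (hp : p ∈ homog X.N (n.deg - m.deg)) : m ⟶ n :=
  ⟨Ideal.Quotient.mk X.I p, ⟨p, hp, rfl⟩⟩

lemma Deg.exists_ofPol {m n : Deg X} (a : m ⟶ n) :
    ∃ (p : Pol X.N) (hp : p ∈ homog X.N (n.deg - m.deg)), a = Deg.ofPol p hp := by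
  obtain ⟨a, p, hp, rfl⟩ := a
  exact ⟨p, hp, rfl⟩

lemma Deg.ofPol_comp {m n l : Deg X} (p q : Pol X.N) (hp : p ∈ homog X.N (n.deg - m.deg))
    (hq : q ∈ homog X.N (l.deg - n.deg)) (hpq : p * q ∈ homog X.N (l.deg - m.deg)) :
    Deg.ofPol p hp ≫ Deg.ofPol q hq = Deg.ofPol (p * q) hpq :=
  Subtype.ext (map_mul _ _ _).symm

lemma Deg.ofPol_sum {m n : Deg X} {ι : Type*} (s : Finset ι) (p : ι → Pol X.N)
    (hp : ∀ i, p i ∈ homog X.N (n.deg - m.deg)) :
    Deg.ofPol (∑ i ∈ s, p i) (Submodule.sum_mem _ fun i _ => hp i) =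
      ∑ i ∈ s, Deg.ofPol (p i) (hp i) := by
  classical
  apply Subtype.ext
  change Ideal.Quotient.mk X.I (∑ i ∈ s, p i) =
    (X.piece (n.deg - m.deg)).subtype (∑ i ∈ s, Deg.ofPol (p i) (hp i))
  rw [map_sum, map_sum]
  rfl

/-- A functor `M : Deg X ⥤ ModuleCat ℂ` is finitely generated if there are finitely many elements
`x i ∈ M (g i)` such that every element of every `M n` is a combination `∑ a i • x i` with
homogeneous coefficients `a i`. -/
def FG (X : ProjData) (M : Deg X ⥤ ModuleCat.{0} ℂ) : Prop :=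
  ∃ (k : ℕ) (g : Fin k → Deg X) (x : ∀ i, M.obj (g i)), ∀ (n : Deg X) (y : M.obj n),
    ∃ a : ∀ i, g i ⟶ n, y = ∑ i, (M.map (a i)).hom (x i)

lemma FG.of_fintype {M : Deg X ⥤ ModuleCat.{0} ℂ} {ι : Type*} [Fintype ι] (g : ι → Deg X)
    (x : ∀ i, M.obj (g i)) (h : ∀ (n : Deg X) (y : M.obj n),
      ∃ a : ∀ i, g i ⟶ n, y = ∑ i, (M.map (a i)).hom (x i)) : FG X M := by
  let e := Fintype.equivFin ι
  refine ⟨Fintype.card ι, fun j => g (e.symm j), fun j => x (e.symm j), fun n y => ?_⟩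
  obtain ⟨a, rfl⟩ := h n y
  exact ⟨fun j => a (e.symm j), (Equiv.sum_comp e.symm _).symm⟩

lemma FG.of_epi {M M' : Deg X ⥤ ModuleCat.{0} ℂ} (f : M ⟶ M')
    (hf : ∀ n, Function.Surjective (f.app n).hom) (h : FG X M) : FG X M' := by
  obtain ⟨k, g, x, hx⟩ := h
  refine ⟨k, g, fun i => (f.app (g i)).hom (x i), fun n y => ?_⟩
  obtain ⟨y, rfl⟩ := hf n y
  obtain ⟨a, rfl⟩ := hx n y
  refine ⟨a, ?_⟩
  rw [map_sum]
  refine Finset.sum_congr rfl fun i _ => ?_
  have := f.naturality (a i)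
  exact congrArg (fun φ => φ.hom (x i)) this

lemma FG.of_mono {M M' : Deg X ⥤ ModuleCat.{0} ℂ} [M.Additive] (f : M' ⟶ M)
    (hf : ∀ n, Function.Injective (f.app n).hom) (h : FG X M) : FG X M' := by
  obtain ⟨k, g, x, hx⟩ := h
  let S : Set (ℤ × (Fin k → Pol X.N)) := {s | ∃ (hs : ∀ i, s.2 i ∈ homog X.N (s.1 - (g i).deg))
    (y : M'.obj ⟨s.1⟩), (f.app ⟨s.1⟩).hom y =
      ∑ i, (M.map (Deg.ofPol (m := g i) (n := ⟨s.1⟩) (s.2 i) (hs i))).hom (x i)}
  obtain ⟨r, t, htS, ht⟩ := exists_homog_generators (fun i => (g i).deg) S fun s hs => hs.1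
  choose hs y hy using htS
  refine ⟨r, fun j => ⟨(t j).1⟩, y, fun n z => ?_⟩
  obtain ⟨a, ha⟩ := hx n ((f.app n).hom z)
  choose p hp hap using fun i => Deg.exists_ofPol (a i)
  obtain ⟨c, hc, hcp⟩ := ht (n.deg, p) ⟨hp, z, by
    rw [ha]
    exact Finset.sum_congr rfl fun i _ => by rw [hap i]⟩
  refine ⟨fun j => Deg.ofPol (m := ⟨(t j).1⟩) (n := n) (c j) (hc j), hf n ?_⟩
  rw [map_sum, ha]
  have h1 : ∀ j, (f.app n).hom ((M'.map (Deg.ofPol (m := ⟨(t j).1⟩) (n := n) (c j) (hc j))).hom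
      (y j)) = ∑ i, (M.map (Deg.ofPol (m := g i) (n := n) (c j * (t j).2 i)
        (by
          have := mul_mem_homog (hc j) (hs j i)
          rwa [show n.deg - (t j).1 + ((t j).1 - (g i).deg) = n.deg - (g i).deg by omega] at this))).hom
        (x i) := by
    intro j
    have h2 := congrArg (fun φ => φ.hom (y j))
      (f.naturality (Deg.ofPol (m := ⟨(t j).1⟩) (n := n) (c j) (hc j)))
    refine h2.trans ?_
    change (M.map _).hom ((f.app ⟨(t j).1⟩).hom (y j)) = _
    rw [hy j, map_sum]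
    refine Finset.sum_congr rfl fun i _ => ?_
    have h3 := Deg.ofPol_comp (m := g i) (n := ⟨(t j).1⟩) (l := n) ((t j).2 i) (c j) (hs j i)
      (hc j) (by
        have := mul_mem_homog (hs j i) (hc j)
        rwa [show (t j).1 - (g i).deg + (n.deg - (t j).1) = n.deg - (g i).deg by omega] at this)
    have h4 := congrArg (fun φ => (M.map φ).hom (x i)) h3
    simp only [M.map_comp] at h4
    refine h4.trans ?_
    congr 3
    simp only [mul_comm]
  rw [Finset.sum_congr rfl fun j _ => h1 j, Finset.sum_comm]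
  refine Finset.sum_congr rfl fun i _ => ?_
  have h5 : a i = ∑ j, Deg.ofPol (m := g i) (n := n) (c j * (t j).2 i)
        (by
          have := mul_mem_homog (hc j) (hs j i)
          rwa [show n.deg - (t j).1 + ((t j).1 - (g i).deg) = n.deg - (g i).deg by omega] at this) := by
    rw [← Deg.ofPol_sum, hap i]
    congr 1
    exact hcp i
  rw [h5, M.map_sum, ModuleCat.hom_sum]
  simp

end H24.Ku
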