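import Pool.Agent.H24.Ku.Pub
import Pool.Agent.H91.MF.Defs
import Pool.Agent.H63.KA.Final

/-!
# Assembly of the final theorem
-/

open CategoryTheory CategoryTheory.Limits MvPolynomial Pool.Agent.H63.KA

noncomputable section

namespace H24.Ku

/-- The countable set of hypersurfaces to be avoided: all nonzero forms with integer
coefficients in the `56` coefficients of the cubic form. -/
def badForms : Set (MvPolynomial CubicMonomial ℂ) :=
  {P | ∃ P' : MvPolynomial CubicMonomial ℤ, P' ≠ 0 ∧ (∃ d, P'.IsHomogeneous d) ∧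
    P = MvPolynomial.map (Int.castRingHom ℂ) P'}

lemma badForms_countable : badForms.Countable := by
  have : Countable (MvPolynomial CubicMonomial ℤ) :=
    Function.Injective.countable (AddMonoidAlgebra.coeffEquiv (R := ℤ)
      (M := CubicMonomial →₀ ℕ)).injective
  refine (Set.countable_range
    (fun P' : MvPolynomial CubicMonomial ℤ => MvPolynomial.map (Int.castRingHom ℂ) P')).mono ?_
  rintro _ ⟨P', -, -, rfl⟩
  exact ⟨P', rfl⟩

lemma badForms_ne_zero {P : MvPolynomial CubicMonomial ℂ} (hP : P ∈ badForms) :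
    P ≠ 0 ∧ ∃ d, P.IsHomogeneous d := by
  obtain ⟨P', h0, ⟨d, hd⟩, rfl⟩ := hP
  refine ⟨fun h => h0 ?_, d, hd.map _⟩
  exact MvPolynomial.map_injective _ (Int.cast_injective) (by simpa using h)

lemma vg_of_badForms {f : Pol 5}
    (h : ∀ P ∈ badForms, eval (fun m : CubicMonomial => f.coeff m.1) P ≠ 0) : KuMF.VG f := by
  intro P d hP h0 h1
  refine h _ ⟨P, h0, ⟨d, hP⟩, rfl⟩ ?_
  rw [MvPolynomial.eval_map]
  exact h1

/-- The category side: for a very general smooth cubic form, a K3-like category embeds in the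
Kuznetsov component. -/
def KSide : Prop :=
  ∀ (f : Pol 5) (hf : f.IsHomogeneous 3), IsSmoothCubic f → KuMF.VG f →
    ∃ (K : Type 1) (_ : Category.{0} K) (_ : Preadditive K) (_ : Linear ℂ K) (_ : HasZeroObject K)
      (_ : HasShift K ℤ) (_ : ∀ n : ℤ, (shiftFunctor K n).Additive) (_ : Pretriangulated K)
      (_ : IsTriangulated K) (_ : K3Data K) (Φ : K ⥤ KuComp f hf) (_ : Φ.CommShift ℤ),
      Φ.IsTriangulated ∧ Φ.Linear ℂ ∧ Φ.Full ∧ Φ.Faithful

/-- The surface side. -/
def SSide : Prop :=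
  ∀ S : ProjData, IsSmoothSurface S →
    SurfaceAx (T := Db S) (fun n => ODb S (-n))
      (fun M a b => M.obj.IsGE a ∧ M.obj.IsLE b)

theorem finalStatement_of (hK : KSide) (hS : SSide) : FinalStatement := by
  refine ⟨badForms, badForms_countable, fun P hP => badForms_ne_zero hP, ?_⟩
  rintro f hf hsm hvg S hSm ⟨F, hF, h1, h2, h3, h4⟩
  obtain ⟨K, _, _, _, _, _, _, _, _, kd, Φ, _, _, _, _, _⟩ := hK f hf hsm (vg_of_badForms hvg)
  exact no_embedding kd (hS S hSm) (Φ ⋙ F)

theorem mainStatement_of (hK : KSide) (hS : SSide) : H24.KuS.MainStatement :=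
  H24.KuS.main_of_final (finalStatement_of hK hS)

end H24.Ku
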