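import Pool.Agent.H24.Ku.GradedModules

/-!
# Free graded modules: Yoneda, projectivity, enough projectives
-/

open CategoryTheory CategoryTheory.Limits MvPolynomial

noncomputable section

namespace H24.Ku

variable {X : ProjData}

instance : HasFiniteBiproducts (Gr X) := Abelian.hasFiniteBiproducts

instance : HasFiniteBiproducts (Coh X) := Abelian.hasFiniteBiproducts

instance (M : Gr X) : M.obj.Additive := M.property.1

instance (M : Gr X) : M.obj.Linear ℂ := M.property.2.1

/-- Epimorphisms of graded modules are surjective in every degree. -/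
lemma gr_surjective {M N : Gr X} (f : M ⟶ N) [Epi f] (n : Deg X) :
    Function.Surjective (f.hom.app n).hom :=
  (ModuleCat.epi_iff_surjective _).1 (inferInstanceAs (Epi ((evalDeg X n).map f)))

/-- Monomorphisms of graded modules are injective in every degree. -/
lemma gr_injective {M N : Gr X} (f : M ⟶ N) [Mono f] (n : Deg X) :
    Function.Injective (f.hom.app n).hom :=
  (ModuleCat.mono_iff_injective _).1 (inferInstanceAs (Mono ((evalDeg X n).map f)))

lemma gr_epi_of_surjective {M N : Gr X} (f : M ⟶ N)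
    (h : ∀ n, Function.Surjective (f.hom.app n).hom) : Epi f := by
  have : ∀ n, Epi (f.hom.app n) := fun n => (ModuleCat.epi_iff_surjective _).2 (h n)
  have : Epi f.hom := NatTrans.epi_of_epi_app _
  exact (grProp X).ι.epi_of_epi_map this

lemma gr_mono_of_injective {M N : Gr X} (f : M ⟶ N)
    (h : ∀ n, Function.Injective (f.hom.app n).hom) : Mono f := by
  have : ∀ n, Mono (f.hom.app n) := fun n => (ModuleCat.mono_iff_injective _).2 (h n)
  have : Mono f.hom := NatTrans.mono_of_mono_app _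
  exact (grProp X).ι.mono_of_mono_map this

lemma gr_naturality {M N : Gr X} (f : M ⟶ N) {m n : Deg X} (a : m ⟶ n) (z : M.obj.obj m) :
    (f.hom.app n).hom ((M.obj.map a).hom z) = (N.obj.map a).hom ((f.hom.app m).hom z) :=
  app_naturality f.hom a z

lemma gr_hom_ext {M N : Gr X} {f g : M ⟶ N}
    (h : ∀ (n : Deg X) (z : M.obj.obj n), (f.hom.app n).hom z = (g.hom.app n).hom z) : f = g := by
  apply ObjectProperty.hom_ext
  ext n z
  exact h n z

/-- The element of `A(n)` in degree `-n` which generates it. -/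
def freeGen (X : ProjData) (n : ℤ) : (free X n).obj.obj ⟨-n⟩ := 𝟙 (⟨-n⟩ : Deg X)

/-- The morphism `A(n) ⟶ M` which sends the generator to `x ∈ M_{-n}`. -/
def freeHom {n : ℤ} {M : Gr X} (x : M.obj.obj ⟨-n⟩) : free X n ⟶ M :=
  ObjectProperty.homMk
    { app := fun m => ModuleCat.ofHom (Y := M.obj.obj m)
        { toFun := fun a : ((⟨-n⟩ : Deg X) ⟶ m) => (M.obj.map a).hom x
          map_add' := fun a b => by rw [M.obj.map_add]; rfl
          map_smul' := fun c a => by rw [M.obj.map_smul]; rfl }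
      naturality := fun m l b => by
        ext a
        exact congrArg (fun φ => φ.hom x) (M.obj.map_comp (X := ⟨-n⟩) a b) }

lemma freeHom_apply {n : ℤ} {M : Gr X} (x : M.obj.obj ⟨-n⟩) {m : Deg X}
    (a : (⟨-n⟩ : Deg X) ⟶ m) : ((freeHom x).hom.app m).hom a = (M.obj.map a).hom x := rfl

lemma freeHom_gen {n : ℤ} {M : Gr X} (x : M.obj.obj ⟨-n⟩) :
    ((freeHom x).hom.app ⟨-n⟩).hom (freeGen X n) = x := by
  rw [freeGen, freeHom_apply, M.obj.map_id]
  rfl

lemma map_freeGen {n : ℤ} {m : Deg X} (a : (⟨-n⟩ : Deg X) ⟶ m) :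
    ((free X n).obj.map a).hom (freeGen X n) = a :=
  Category.id_comp (X := (⟨-n⟩ : Deg X)) a

lemma freeHom_ext {n : ℤ} {M : Gr X} {f g : free X n ⟶ M}
    (h : (f.hom.app ⟨-n⟩).hom (freeGen X n) = (g.hom.app ⟨-n⟩).hom (freeGen X n)) : f = g := by
  apply gr_hom_ext
  intro m a
  have h1 := gr_naturality f (m := ⟨-n⟩) (n := m) a (freeGen X n)
  have h2 := gr_naturality g (m := ⟨-n⟩) (n := m) a (freeGen X n)
  have h3 : ((free X n).obj.map (X := ⟨-n⟩) (Y := m) a).hom (freeGen X n) = a := map_freeGen a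
  have h4 := h1.trans ((congrArg (M.obj.map (X := ⟨-n⟩) a).hom h).trans h2.symm)
  exact (congrArg (f.hom.app m).hom h3).symm.trans (h4.trans (congrArg (g.hom.app m).hom h3))

/-- Yoneda lemma: `Hom(A(n), M) = M_{-n}`. -/
def freeEquiv (n : ℤ) (M : Gr X) : (free X n ⟶ M) ≃ₗ[ℂ] M.obj.obj ⟨-n⟩ where
  toFun f := (f.hom.app ⟨-n⟩).hom (freeGen X n)
  invFun x := freeHom x
  left_inv _ := freeHom_ext (freeHom_gen _)
  right_inv x := freeHom_gen x
  map_add' _ _ := rfl
  map_smul' _ _ := rfl

lemma freeEquiv_naturality {n : ℤ} {M N : Gr X} (f : free X n ⟶ M) (g : M ⟶ N) :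
    freeEquiv n N (f ≫ g) = (g.hom.app ⟨-n⟩).hom (freeEquiv n M f) := rfl

lemma freeEquiv_symm_apply (n : ℤ) (M : Gr X) (x : M.obj.obj ⟨-n⟩) :
    (freeEquiv n M).symm x = freeHom x := rfl

instance (n : ℤ) : Projective (free X n) where
  factors {M N} f e _ := by
    obtain ⟨x, hx⟩ := gr_surjective e ⟨-n⟩ (freeEquiv n N f)
    refine ⟨freeHom x, (freeEquiv n N).injective ?_⟩
    rw [freeEquiv_naturality, ← hx]
    exact congrArg _ (freeHom_gen x)

/-- A finite direct sum of free graded modules of rank one. -/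
abbrev freeSum (X : ProjData) {k : ℕ} (n : Fin k → ℤ) : Gr X := ⨁ fun i => free X (n i)

/-- Every finitely generated graded module is a quotient of a finite free one. -/
lemma exists_epi_freeSum (M : Gr X) : ∃ (k : ℕ) (n : Fin k → ℤ) (π : freeSum X n ⟶ M), Epi π := by
  obtain ⟨k, g, x, hx⟩ := M.property.2.2
  have hg : ∀ i, (⟨-(-(g i).deg)⟩ : Deg X) = g i := fun i => by
    cases h : g i
    simp
  let x' : ∀ i, M.obj.obj ⟨-(-(g i).deg)⟩ := fun i => (M.obj.map (eqToHom (hg i).symm)).hom (x i)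
  refine ⟨k, fun i => -(g i).deg, biproduct.desc fun i => freeHom (x' i), ?_⟩
  refine gr_epi_of_surjective _ fun n y => ?_
  obtain ⟨a, rfl⟩ := hx n y
  let z : ∀ i, (free X (-(g i).deg)).obj.obj n := fun i => (eqToHom (hg i) ≫ a i : (⟨-(-(g i).deg)⟩ : Deg X) ⟶ n)
  refine ⟨∑ i, ((biproduct.ι (fun i => free X (-(g i).deg)) i).hom.app n).hom (z i), ?_⟩
  rw [map_sum]
  refine Finset.sum_congr rfl fun i _ => ?_
  have h1 := congrArg (fun φ => (φ.hom.app n).hom (z i))
    (biproduct.ι_desc (fun i => freeHom (M := M) (x' i)) i)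
  refine h1.trans ?_
  change (M.obj.map (eqToHom (hg i) ≫ a i)).hom ((M.obj.map (eqToHom (hg i).symm)).hom (x i)) = _
  rw [← ModuleCat.comp_apply, ← M.obj.map_comp]
  simp

instance : EnoughProjectives (Gr X) where
  presentation M := by
    obtain ⟨k, n, π, _⟩ := exists_epi_freeSum M
    exact ⟨{ p := freeSum X n, f := π }⟩

end H24.Ku
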