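import Pool.Agent.H24.Ku.FGClosure

/-!
# Finitely generated graded modules over the homogeneous coordinate ring, coherent sheaves
-/

open CategoryTheory CategoryTheory.Limits MvPolynomial

noncomputable section

namespace H24.Ku

variable (X : ProjData)

/-- The functors `Deg X ⥤ ModuleCat ℂ` which are finitely generated graded modules over the
homogeneous coordinate ring of `X`: the finitely generated `ℂ`-linear functors. -/
def grProp : ObjectProperty (Deg X ⥤ ModuleCat.{0} ℂ) :=
  fun M => M.Additive ∧ M.Linear ℂ ∧ FG X M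

/-- The category of finitely generated graded modules over the homogeneous coordinate ring. -/
abbrev Gr : Type 1 := (grProp X).FullSubcategory

section closure

variable {X} {M M' : Deg X ⥤ ModuleCat.{0} ℂ}

lemma app_injective (f : M' ⟶ M) [Mono f] (n : Deg X) : Function.Injective (f.app n).hom :=
  (ModuleCat.mono_iff_injective _).1 inferInstance

lemma app_surjective (f : M' ⟶ M) [Epi f] (n : Deg X) : Function.Surjective (f.app n).hom :=
  (ModuleCat.epi_iff_surjective _).1 inferInstance

lemma app_naturality (f : M' ⟶ M) {m n : Deg X} (a : m ⟶ n) (z : M'.obj m) :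
    (f.app n).hom ((M'.map a).hom z) = (M.map a).hom ((f.app m).hom z) :=
  congrArg (fun φ => φ.hom z) (f.naturality a)

lemma additive_of_injective (f : M' ⟶ M) (hf : ∀ n, Function.Injective (f.app n).hom)
    (h : M.Additive) : M'.Additive where
  map_add {m n a b} := by
    ext z
    apply hf n
    rw [app_naturality, M.map_add]
    simp only [ModuleCat.hom_add, LinearMap.add_apply, map_add, app_naturality]

lemma linear_of_injective (f : M' ⟶ M) (hf : ∀ n, Function.Injective (f.app n).hom)
    (h : M.Linear ℂ) : M'.Linear ℂ where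
  map_smul {m n} a c := by
    ext z
    apply hf n
    rw [app_naturality, M.map_smul]
    simp only [ModuleCat.hom_smul, LinearMap.smul_apply, map_smul, app_naturality]

lemma additive_of_surjective (f : M ⟶ M') (hf : ∀ n, Function.Surjective (f.app n).hom)
    (h : M.Additive) : M'.Additive where
  map_add {m n a b} := by
    ext z
    obtain ⟨z, rfl⟩ := hf m z
    rw [← app_naturality, M.map_add]
    simp only [ModuleCat.hom_add, LinearMap.add_apply, map_add, app_naturality]

lemma linear_of_surjective (f : M ⟶ M') (hf : ∀ n, Function.Surjective (f.app n).hom)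
    (h : M.Linear ℂ) : M'.Linear ℂ where
  map_smul {m n} a c := by
    ext z
    obtain ⟨z, rfl⟩ := hf m z
    rw [← app_naturality, M.map_smul]
    simp only [ModuleCat.hom_smul, LinearMap.smul_apply, map_smul, app_naturality]

end closure

instance : (grProp X).IsClosedUnderSubobjects where
  prop_of_mono f _ h :=
    ⟨additive_of_injective f (app_injective f) h.1, linear_of_injective f (app_injective f) h.2.1,
      have := h.1
      FG.of_mono f (app_injective f) h.2.2⟩

instance : (grProp X).IsClosedUnderQuotients where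
  prop_of_epi f _ h :=
    ⟨additive_of_surjective f (app_surjective f) h.1,
      linear_of_surjective f (app_surjective f) h.2.1, FG.of_epi f (app_surjective f) h.2.2⟩

open ZeroObject in
instance : (grProp X).ContainsZero where
  exists_zero := ⟨0, isZero_zero _, by
    have h : ∀ n : Deg X, IsZero ((0 : Deg X ⥤ ModuleCat.{0} ℂ).obj n) := fun n =>
      ((evaluation _ _).obj n).map_isZero (isZero_zero _)
    refine ⟨⟨fun {m n a b} => (h m).eq_of_src _ _⟩, ⟨fun {m n} a c => (h m).eq_of_src _ _⟩,
      0, fun i => i.elim0, fun i => i.elim0, fun n y => ⟨fun i => i.elim0, ?_⟩⟩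
    have := ModuleCat.subsingleton_of_isZero (h n)
    exact Subsingleton.elim _ _⟩

instance : (grProp X).IsClosedUnderFiniteProducts where
  isClosedUnderLimitsOfShape J _ := by
    classical
    have := Fintype.ofFinite J
    refine ⟨?_⟩
    rintro L ⟨hL⟩
    let π : ∀ j : J, L ⟶ hL.diag.obj ⟨j⟩ := fun j => hL.π.app ⟨j⟩
    have hext : ∀ {Z : Deg X ⥤ ModuleCat.{0} ℂ} (u v : Z ⟶ L), (∀ j, u ≫ π j = v ≫ π j) → u = v :=
      fun u v h => hL.isLimit.hom_ext fun j => h j.as
    have hι : ∀ j : J, ∃ ι : hL.diag.obj ⟨j⟩ ⟶ L, ∀ j' : J, ι ≫ π j' =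
        if h : j = j' then eqToHom (by rw [h]) else 0 := by
      intro j
      let c : Cone hL.diag :=
        { pt := hL.diag.obj ⟨j⟩
          π := Discrete.natTrans fun j' =>
            if h : j = j'.as then eqToHom (by subst h; rfl) else 0 }
      exact ⟨hL.isLimit.lift c, fun j' => hL.isLimit.fac c ⟨j'⟩⟩
    choose ι hι using hι
    have hid : ∑ j, π j ≫ ι j = 𝟙 L := by
      apply hext
      intro j'
      rw [Preadditive.sum_comp, Category.id_comp, Finset.sum_eq_single j']
      · rw [Category.assoc, hι, dif_pos rfl]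
        simp
      · intro j _ hj
        rw [Category.assoc, hι, dif_neg hj, comp_zero]
      · simp
    have hidn : ∀ (n : Deg X) (z : L.obj n), z = ∑ j, ((ι j).app n).hom (((π j).app n).hom z) := by
      intro n z
      have h1 := congrArg (fun φ : L ⟶ L => (φ.app n).hom z) hid
      simp only [NatTrans.id_app, ModuleCat.hom_id, LinearMap.id_apply] at h1
      refine h1.symm.trans ?_
      have h2 : (∑ j, π j ≫ ι j).app n = ∑ j, (π j ≫ ι j).app n :=
        map_sum (NatTrans.appHom n : (L ⟶ L) →+ (L.obj n ⟶ L.obj n)) _ _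
      rw [h2, ModuleCat.hom_sum]
      simp
    have hmap : ∀ {m n : Deg X} (a : m ⟶ n) (z : L.obj m), (L.map a).hom z =
        ∑ j, ((ι j).app n).hom (((hL.diag.obj ⟨j⟩).map a).hom (((π j).app m).hom z)) := by
      intro m n a z
      rw [hidn n ((L.map a).hom z)]
      exact Finset.sum_congr rfl fun j _ => by rw [app_naturality]
    refine ⟨⟨fun {m n a b} => ?_⟩, ⟨fun {m n} a c => ?_⟩, ?_⟩
    · ext z
      rw [ModuleCat.hom_add, LinearMap.add_apply, hmap, hmap, hmap, ← Finset.sum_add_distrib]
      refine Finset.sum_congr rfl fun j _ => ?_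
      have := (hL.prop_diag_obj ⟨j⟩).1
      rw [(hL.diag.obj ⟨j⟩).map_add]
      simp
    · ext z
      rw [ModuleCat.hom_smul, LinearMap.smul_apply, hmap, hmap, Finset.smul_sum]
      refine Finset.sum_congr rfl fun j _ => ?_
      have := (hL.prop_diag_obj ⟨j⟩).2.1
      rw [(hL.diag.obj ⟨j⟩).map_smul]
      simp
    · choose k g x hx using fun j => (hL.prop_diag_obj ⟨j⟩).2.2
      refine FG.of_fintype (ι := Σ j, Fin (k j)) (fun p => g p.1 p.2)
        (fun p => ((ι p.1).app _).hom (x p.1 p.2)) fun n y => ?_
      choose a ha using fun j => hx j n (((π j).app n).hom y)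
      refine ⟨fun p => a p.1 p.2, ?_⟩
      rw [hidn n y, Fintype.sum_sigma]
      refine Finset.sum_congr rfl fun j _ => ?_
      rw [ha j, map_sum]
      exact Finset.sum_congr rfl fun i _ => app_naturality _ _ _

example : Abelian (Gr X) := inferInstance

example : Linear ℂ (Gr X) := inferInstance

/-- Graded modules which vanish in all large degrees (for finitely generated ones: the graded
modules of finite length). -/
def finLen : ObjectProperty (Gr X) :=
  fun M => ∃ n₀ : ℤ, ∀ n : Deg X, n₀ ≤ n.deg → Subsingleton (M.obj.obj n)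

instance : PreservesFiniteLimits (grProp X).ι := by
  have : ∀ {A B : Gr X} (f : A ⟶ B), PreservesLimit (parallelPair f 0) (grProp X).ι :=
    fun f => (grProp X).preservesKernels_ι f
  exact Functor.preservesFiniteLimits_of_preservesKernels _

instance : PreservesFiniteColimits (grProp X).ι := by
  have : ∀ {A B : Gr X} (f : A ⟶ B), PreservesColimit (parallelPair f 0) (grProp X).ι :=
    fun f => (grProp X).preservesCokernels_ι f
  exact Functor.preservesFiniteColimits_of_preservesCokernels _

/-- The evaluation functor `M ↦ M_n` on graded modules. -/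
def evalDeg (n : Deg X) : Gr X ⥤ ModuleCat.{0} ℂ := (grProp X).ι ⋙ (evaluation _ _).obj n

instance (n : Deg X) : PreservesFiniteLimits (evalDeg X n) := by
  unfold evalDeg
  infer_instance

instance (n : Deg X) : PreservesFiniteColimits (evalDeg X n) := by
  unfold evalDeg
  infer_instance

instance (n : Deg X) : (evalDeg X n).Additive := by
  unfold evalDeg
  infer_instance

lemma finLen_iff (M : Gr X) : finLen X M ↔ ∃ n₀ : ℤ, ∀ n : Deg X, n₀ ≤ n.deg →
    IsZero ((evalDeg X n).obj M) :=
  exists_congr fun _ => forall₂_congr fun _ _ => ModuleCat.isZero_iff_subsingleton.symm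

open ZeroObject in
instance : (finLen X).IsSerreClass where
  exists_zero := ⟨0, isZero_zero _, (finLen_iff X _).2 ⟨0, fun n _ =>
    (evalDeg X n).map_isZero (isZero_zero _)⟩⟩
  prop_of_mono f _ h := by
    rw [finLen_iff] at h ⊢
    obtain ⟨n₀, h⟩ := h
    exact ⟨n₀, fun n hn => IsZero.of_mono ((evalDeg X n).map f) (h n hn)⟩
  prop_of_epi f _ h := by
    rw [finLen_iff] at h ⊢
    obtain ⟨n₀, h⟩ := h
    exact ⟨n₀, fun n hn => IsZero.of_epi ((evalDeg X n).map f) (h n hn)⟩
  prop_X₂_of_shortExact {S} hS h₁ h₃ := by
    rw [finLen_iff] at h₁ h₃ ⊢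
    obtain ⟨n₁, h₁⟩ := h₁
    obtain ⟨n₃, h₃⟩ := h₃
    refine ⟨max n₁ n₃, fun n hn => ?_⟩
    exact (hS.map_of_exact (evalDeg X n)).exact.isZero_of_both_zeros
      ((h₁ n (le_trans (le_max_left _ _) hn)).eq_of_src _ _)
      ((h₃ n (le_trans (le_max_right _ _) hn)).eq_of_tgt _ _)

/-- The category of coherent sheaves on `X`, by Serre's theorem the quotient of the category of
finitely generated graded modules by the Serre subcategory of modules of finite length. -/
abbrev Coh : Type 1 := (finLen X).isoModSerre.Localization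

example : Preadditive (Coh X) := inferInstance

example : Linear ℂ (Coh X) := inferInstance

instance : Abelian (Coh X) :=
  ObjectProperty.SerreClassLocalization.abelian (finLen X).isoModSerre.Q (finLen X)

/-- The quotient functor from graded modules to coherent sheaves, `M ↦ M~`. -/
abbrev sheaf : Gr X ⥤ Coh X := (finLen X).isoModSerre.Q

lemma grProp_coyoneda (m : Deg X) :
    grProp X ((linearCoyoneda ℂ (Deg X)).obj (Opposite.op m)) := by
  refine ⟨inferInstance, ⟨fun {m n} f r => ?_⟩, 1, fun _ => m, fun _ => 𝟙 m, fun n y => ?_⟩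
  · ext x
    exact Linear.comp_smul _ _ _ x r f
  · refine ⟨fun _ => y, ?_⟩
    rw [Fin.sum_univ_one]
    exact (Category.id_comp (X := m) y).symm

/-- The free graded module `A(n)` of rank one, `A(n)_m = A_{n+m}`. -/
def free (n : ℤ) : Gr X :=
  ⟨(linearCoyoneda ℂ (Deg X)).obj (Opposite.op ⟨-n⟩), grProp_coyoneda X _⟩

/-- The line bundle `𝒪(n)`. -/
abbrev O (n : ℤ) : Coh X := (sheaf X).obj (free X n)

instance : HasDerivedCategory (Coh X) := HasDerivedCategory.standard _

/-- The bounded derived category of coherent sheaves on `X`. -/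
abbrev Db : Type 1 := DerivedCategory.Bounded (Coh X)

/-- The line bundle `𝒪(n)` as an object of the bounded derived category. -/
abbrev ODb (n : ℤ) : Db X :=
  ⟨(DerivedCategory.singleFunctor (Coh X) 0).obj (O X n), ⟨0, inferInstance⟩, ⟨0, inferInstance⟩⟩

end H24.Ku
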