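import Mathlib

/-!
# Graded pieces of homogeneous coordinate rings, the category `Deg X`
-/

open CategoryTheory CategoryTheory.Limits MvPolynomial

noncomputable section

namespace H24.Ku

/-- The polynomial ring `ℂ[x_0, …, x_N]`. -/
abbrev Pol (N : ℕ) : Type := MvPolynomial (Fin (N + 1)) ℂ

/-- The homogeneous polynomials of degree `d ∈ ℤ` (only `0` when `d < 0`). -/
def homog (N : ℕ) (d : ℤ) : Submodule ℂ (Pol N) where
  carrier := {p | ∀ m ∈ p.support, (m.degree : ℤ) = d}
  zero_mem' := by simp
  add_mem' := by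
    intro p q hp hq m hm
    rcases Finset.mem_union.1 (MvPolynomial.support_add hm) with h | h
    · exact hp m h
    · exact hq m h
  smul_mem' := by
    intro c p hp m hm
    exact hp m (MvPolynomial.support_smul hm)

/-- A closed subscheme `Proj (ℂ[x_0..x_N]/I)` of a projective space, given by a homogeneous
ideal. -/
structure ProjData where
  /-- dimension of the ambient projective space -/
  N : ℕ
  /-- the homogeneous ideal -/
  I : Ideal (Pol N)
  homogeneous : ∀ p ∈ I, ∀ n : ℕ, homogeneousComponent n p ∈ I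

variable (X : ProjData)

/-- The homogeneous coordinate ring. -/
abbrev ProjData.A : Type := Pol X.N ⧸ X.I

/-- The piece of degree `d` of the homogeneous coordinate ring. -/
def ProjData.piece (d : ℤ) : Submodule ℂ X.A :=
  (homog X.N d).map (Ideal.Quotient.mkₐ ℂ X.I).toLinearMap

lemma one_mem_homog (N : ℕ) : (1 : Pol N) ∈ homog N 0 := by
  intro m hm
  rw [MvPolynomial.mem_support_iff] at hm
  have : m = 0 := by
    by_contra h
    exact hm (by rw [← MvPolynomial.C_1, MvPolynomial.coeff_C, if_neg (Ne.symm h)])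
  simp [this]

lemma mul_mem_homog {N : ℕ} {d e : ℤ} {p q : Pol N} (hp : p ∈ homog N d) (hq : q ∈ homog N e) :
    p * q ∈ homog N (d + e) := by
  classical
  intro m hm
  obtain ⟨a, ha, b, hb, rfl⟩ := Finset.mem_add.1 (MvPolynomial.support_mul p q hm)
  rw [← hp a ha, ← hq b hb, map_add]
  push_cast
  rfl

variable {X}

lemma ProjData.one_mem_piece : (1 : X.A) ∈ X.piece 0 :=
  ⟨1, one_mem_homog _, by simp⟩

lemma ProjData.mul_mem_piece {d e : ℤ} {a b : X.A} (ha : a ∈ X.piece d) (hb : b ∈ X.piece e) :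
    a * b ∈ X.piece (d + e) := by
  obtain ⟨p, hp, rfl⟩ := ha
  obtain ⟨q, hq, rfl⟩ := hb
  exact ⟨p * q, mul_mem_homog hp hq, by simp⟩

variable (X)

/-- The category with objects the integers, where morphisms `m ⟶ n` are the homogeneous elements
of degree `n - m` of the homogeneous coordinate ring `A` of `X`, and composition is the
multiplication of `A`. A `ℂ`-linear functor `Deg X ⥤ ModuleCat ℂ` is the same as a graded
`A`-module. -/
structure Deg (X : ProjData) where
  /-- the underlying integer -/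
  deg : ℤ

variable {X}

/-- The morphisms `m ⟶ n` in `Deg X`: the homogeneous elements of degree `n - m`. -/
abbrev Deg.Hm (m n : Deg X) : Type := X.piece (n.deg - m.deg)

/-- The identity of `m` in `Deg X`: the element `1`. -/
def Deg.one (m : Deg X) : Deg.Hm m m := ⟨1, by simpa using ProjData.one_mem_piece⟩

/-- The composition of morphisms in `Deg X`: the product of homogeneous elements. -/
def Deg.mul {m n p : Deg X} (f : Deg.Hm m n) (g : Deg.Hm n p) : Deg.Hm m p :=
  ⟨f.1 * g.1, by
    have := ProjData.mul_mem_piece f.2 g.2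
    rwa [show n.deg - m.deg + (p.deg - n.deg) = p.deg - m.deg by ring] at this⟩

lemma Deg.one_mul {m n : Deg X} (f : Deg.Hm m n) : Deg.mul (Deg.one m) f = f :=
  Subtype.ext (_root_.one_mul f.1)

lemma Deg.mul_one {m n : Deg X} (f : Deg.Hm m n) : Deg.mul f (Deg.one n) = f :=
  Subtype.ext (_root_.mul_one f.1)

lemma Deg.mul_assoc {m n p q : Deg X} (f : Deg.Hm m n) (g : Deg.Hm n p) (h : Deg.Hm p q) :
    Deg.mul (Deg.mul f g) h = Deg.mul f (Deg.mul g h) :=
  Subtype.ext (_root_.mul_assoc f.1 g.1 h.1)

lemma Deg.add_mul {m n p : Deg X} (f g : Deg.Hm m n) (h : Deg.Hm n p) :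
    Deg.mul (f + g) h = Deg.mul f h + Deg.mul g h := Subtype.ext (_root_.add_mul f.1 g.1 h.1)

lemma Deg.mul_add {m n p : Deg X} (f : Deg.Hm m n) (g h : Deg.Hm n p) :
    Deg.mul f (g + h) = Deg.mul f g + Deg.mul f h := Subtype.ext (_root_.mul_add f.1 g.1 h.1)

lemma Deg.smul_mul {m n p : Deg X} (c : ℂ) (f : Deg.Hm m n) (g : Deg.Hm n p) :
    Deg.mul (c • f) g = c • Deg.mul f g := Subtype.ext (smul_mul_assoc c f.1 g.1)

lemma Deg.mul_smul {m n p : Deg X} (f : Deg.Hm m n) (c : ℂ) (g : Deg.Hm n p) :
    Deg.mul f (c • g) = c • Deg.mul f g := Subtype.ext (mul_smul_comm c f.1 g.1)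

instance : Category (Deg X) where
  Hom := Deg.Hm
  id := Deg.one
  comp := Deg.mul
  id_comp := Deg.one_mul
  comp_id := Deg.mul_one
  assoc := Deg.mul_assoc

instance : Preadditive (Deg X) where
  homGroup m n := Submodule.addCommGroup (X.piece (n.deg - m.deg))
  add_comp _ _ _ := Deg.add_mul
  comp_add _ _ _ := Deg.mul_add

instance : Linear ℂ (Deg X) where
  homModule m n := Submodule.module (X.piece (n.deg - m.deg))
  smul_comp _ _ _ := Deg.smul_mul
  comp_smul _ _ _ := Deg.mul_smul

end H24.Ku
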