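import Pool.Agent.H24.Ku.Statement

/-!
# Sealed (compactly printing) copies of the categories of the final statement
-/

open CategoryTheory CategoryTheory.Limits MvPolynomial

noncomputable section

namespace H24.KuS

open H24.Ku

/-- The category of finitely generated graded modules over the homogeneous coordinate ring `A` of
`X`: finitely generated `ℂ`-linear functors from `Deg X` to complex vector spaces. -/
def GrMod (X : ProjData) : Type 1 := (grProp X).FullSubcategory

instance grCat (X : ProjData) : Category.{0} (GrMod X) :=
  ObjectProperty.FullSubcategory.category (grProp X)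

instance grAb (X : ProjData) : Abelian (GrMod X) := (inferInstance : Abelian (Gr X))

instance grLin (X : ProjData) : Linear ℂ (GrMod X) := (inferInstance : Linear ℂ (Gr X))

/-- The graded modules of finite length: those which vanish in all large degrees. -/
def finiteLength (X : ProjData) : ObjectProperty (GrMod X) :=
  fun M => ∃ n₀ : ℤ, ∀ n : Deg X, n₀ ≤ n.deg → Subsingleton (M.obj.obj n)

instance serre (X : ProjData) : (finiteLength X).IsSerreClass :=
  (inferInstance : (finLen X).IsSerreClass)

/-- The morphisms of graded modules which are bijective in large degrees. -/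
def isoLarge (X : ProjData) : MorphismProperty (GrMod X) := (finiteLength X).isoModSerre

/-- The category of coherent sheaves on `X`, by Serre's theorem the quotient of the category of
finitely generated graded modules by the Serre subcategory of modules of finite length. -/
def CohSh (X : ProjData) : Type 1 := (isoLarge X).Localization

instance cohCat (X : ProjData) : Category.{1} (CohSh X) :=
  MorphismProperty.instCategoryLocalization (isoLarge X)

/-- The quotient functor from graded modules to coherent sheaves, `M ↦ M~`. -/
def toSheaf (X : ProjData) : GrMod X ⥤ CohSh X := (isoLarge X).Q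

instance isLoc (X : ProjData) : (toSheaf X).IsLocalization (finiteLength X).isoModSerre :=
  (inferInstance : (isoLarge X).Q.IsLocalization (isoLarge X))

instance cohPre (X : ProjData) : Preadditive (CohSh X) :=
  Localization.preadditive (toSheaf X) (finiteLength X).isoModSerre

instance toSheaf_add (X : ProjData) : (toSheaf X).Additive :=
  Localization.functor_additive (toSheaf X) (finiteLength X).isoModSerre

instance cohAb (X : ProjData) : Abelian (CohSh X) :=
  ObjectProperty.SerreClassLocalization.abelian (toSheaf X) (finiteLength X)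

instance cohLin (X : ProjData) : Linear ℂ (CohSh X) :=
  Localization.linear ℂ (toSheaf X) (finiteLength X).isoModSerre

instance cohHas (X : ProjData) : HasDerivedCategory.{1} (CohSh X) :=
  HasDerivedCategory.standard (CohSh X)

/-- The derived category of the category of coherent sheaves on `X`. -/
def DCoh (X : ProjData) : Type 1 := DerivedCategory (CohSh X)

instance dCat (X : ProjData) : Category.{1} (DCoh X) :=
  (inferInstance : Category.{1} (DerivedCategory (CohSh X)))

instance dPre (X : ProjData) : Preadditive (DCoh X) :=
  (inferInstance : Preadditive (DerivedCategory (CohSh X)))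

instance dLin (X : ProjData) : Linear ℂ (DCoh X) :=
  (inferInstance : Linear ℂ (DerivedCategory (CohSh X)))

instance dZero (X : ProjData) : HasZeroObject (DCoh X) :=
  (inferInstance : HasZeroObject (DerivedCategory (CohSh X)))

instance dShift (X : ProjData) : HasShift (DCoh X) ℤ :=
  (inferInstance : HasShift (DerivedCategory (CohSh X)) ℤ)

instance dAdd (X : ProjData) (n : ℤ) : (shiftFunctor (DCoh X) n).Additive :=
  (inferInstance : (shiftFunctor (DerivedCategory (CohSh X)) n).Additive)

instance dLinShift (X : ProjData) (n : ℤ) : (shiftFunctor (DCoh X) n).Linear ℂ :=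
  (inferInstance : (shiftFunctor (DerivedCategory (CohSh X)) n).Linear ℂ)

instance dTri (X : ProjData) : Pretriangulated (DCoh X) :=
  (inferInstance : Pretriangulated (DerivedCategory (CohSh X)))

/-- The bounded complexes. -/
def bdd (X : ProjData) : ObjectProperty (DCoh X) :=
  (DerivedCategory.TStructure.t (C := CohSh X)).bounded

instance bddTri (X : ProjData) : (bdd X).IsTriangulated :=
  (inferInstance : (DerivedCategory.TStructure.t (C := CohSh X)).bounded.IsTriangulated)

/-- The bounded derived category of coherent sheaves on `X`. -/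
def DbCoh (X : ProjData) : Type 1 := (bdd X).FullSubcategory

instance bCat (X : ProjData) : Category.{1} (DbCoh X) :=
  (inferInstance : Category.{1} (bdd X).FullSubcategory)

instance bPre (X : ProjData) : Preadditive (DbCoh X) :=
  (inferInstance : Preadditive (bdd X).FullSubcategory)

instance bLin (X : ProjData) : Linear ℂ (DbCoh X) :=
  (inferInstance : Linear ℂ (bdd X).FullSubcategory)

instance bZero (X : ProjData) : HasZeroObject (DbCoh X) :=
  (inferInstance : HasZeroObject (bdd X).FullSubcategory)

instance bShift (X : ProjData) : HasShift (DbCoh X) ℤ :=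
  (inferInstance : HasShift (bdd X).FullSubcategory ℤ)

instance bAdd (X : ProjData) (n : ℤ) : (shiftFunctor (DbCoh X) n).Additive :=
  (inferInstance : (shiftFunctor (bdd X).FullSubcategory n).Additive)

instance bTri (X : ProjData) : Pretriangulated (DbCoh X) :=
  (inferInstance : Pretriangulated (bdd X).FullSubcategory)

/-- The free graded module `A(n)` of rank one, `A(n)_m = A_{n+m}`. -/
def freeMod (X : ProjData) (n : ℤ) : GrMod X := free X n

/-- The line bundle `𝒪(n)` as an object of the derived category. -/
def OD (X : ProjData) (n : ℤ) : DCoh X :=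
  (DerivedCategory.singleFunctor (CohSh X) 0).obj ((toSheaf X).obj (freeMod X n))

/-- The line bundle `𝒪(n)` as an object of the bounded derived category. -/
def OB (X : ProjData) (n : ℤ) : DbCoh X := ⟨OD X n, ⟨0, inferInstanceAs
  (((DerivedCategory.singleFunctor (CohSh X) 0).obj ((toSheaf X).obj (freeMod X n))).IsGE 0)⟩,
  ⟨0, inferInstanceAs
  (((DerivedCategory.singleFunctor (CohSh X) 0).obj ((toSheaf X).obj (freeMod X n))).IsLE 0)⟩⟩

/-- The Kuznetsov component `Ku(X)` of the cubic fourfold `X = {f = 0}`: the full subcategory of
`D^b(coh X)` of the objects `E` such that `Hom(𝒪(i), E[n]) = 0` for `i = 0, 1, 2` and all `n`. -/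
def kuz (f : Pol 5) (hf : f.IsHomogeneous 3) : ObjectProperty (DbCoh (cubic f hf)) :=
  fun E => ∀ i : ℤ, 0 ≤ i → i ≤ 2 → ∀ (n : ℤ) (φ : OB (cubic f hf) i ⟶ E⟦n⟧), φ = 0

instance kuzIso (f : Pol 5) (hf : f.IsHomogeneous 3) : (kuz f hf).IsClosedUnderIsomorphisms where
  of_iso {E E'} e hE i h0 h2 n φ := by
    have := hE i h0 h2 n (φ ≫ e.inv⟦n⟧')
    rw [← cancel_mono (e.inv⟦n⟧'), this, zero_comp]

open Pretriangulated ZeroObject in
instance kuzTri (f : Pol 5) (hf : f.IsHomogeneous 3) : (kuz f hf).IsTriangulated where
  exists_zero := ⟨0, isZero_zero _, fun i _ _ n φ =>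
    ((shiftFunctor (DbCoh (cubic f hf)) n).map_isZero (isZero_zero _)).eq_of_tgt _ _⟩
  isStableUnderShiftBy m := ⟨fun E hE i h0 h2 n φ => by
    have := hE i h0 h2 (m + n) (φ ≫ (shiftFunctorAdd (DbCoh (cubic f hf)) m n).inv.app E)
    rw [← cancel_mono ((shiftFunctorAdd (DbCoh (cubic f hf)) m n).inv.app E), this, zero_comp]⟩
  toIsTriangulatedClosed₂ := .mk' fun T hT h1 h3 i h0 h2 n φ => by
    obtain ⟨ψ, hψ⟩ := Triangle.coyoneda_exact₂ _ (Triangle.shift_distinguished T hT n) φ
      (h3 i h0 h2 n _)
    have hψ0 : ψ = 0 := h1 i h0 h2 n ψ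
    subst hψ0
    exact hψ.trans zero_comp

/-- The Kuznetsov component of a cubic fourfold. -/
def Kuz (f : Pol 5) (hf : f.IsHomogeneous 3) : Type 1 := (kuz f hf).FullSubcategory

instance kCat (f : Pol 5) (hf : f.IsHomogeneous 3) : Category.{1} (Kuz f hf) :=
  (inferInstance : Category.{1} (kuz f hf).FullSubcategory)

instance kPre (f : Pol 5) (hf : f.IsHomogeneous 3) : Preadditive (Kuz f hf) :=
  (inferInstance : Preadditive (kuz f hf).FullSubcategory)

instance kLin (f : Pol 5) (hf : f.IsHomogeneous 3) : Linear ℂ (Kuz f hf) :=
  (inferInstance : Linear ℂ (kuz f hf).FullSubcategory)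

instance kZero (f : Pol 5) (hf : f.IsHomogeneous 3) : HasZeroObject (Kuz f hf) :=
  (inferInstance : HasZeroObject (kuz f hf).FullSubcategory)

instance kShift (f : Pol 5) (hf : f.IsHomogeneous 3) : HasShift (Kuz f hf) ℤ :=
  (inferInstance : HasShift (kuz f hf).FullSubcategory ℤ)

instance kAdd (f : Pol 5) (hf : f.IsHomogeneous 3) (n : ℤ) :
    (shiftFunctor (Kuz f hf) n).Additive :=
  (inferInstance : (shiftFunctor (kuz f hf).FullSubcategory n).Additive)

instance kTri (f : Pol 5) (hf : f.IsHomogeneous 3) : Pretriangulated (Kuz f hf) :=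
  (inferInstance : Pretriangulated (kuz f hf).FullSubcategory)

/-- There is a `ℂ`-linear exact (= triangulated) fully faithful functor from the Kuznetsov
component `Ku(X)`, `X = {f = 0}`, to `D^b(coh S)`. -/
def Embeds (f : Pol 5) (hf : f.IsHomogeneous 3) (S : ProjData) : Prop :=
  ∃ (F : Kuz f hf ⥤ DbCoh S) (_ : F.CommShift ℤ),
    F.IsTriangulated ∧ F.Linear ℂ ∧ F.Full ∧ F.Faithful

/-- The final statement: there are countably many nonzero forms `P` in the `56` coefficients of a
cubic form in six variables such that for every smooth cubic form `f` at which none of the `P`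
vanishes and every smooth projective surface `S` there is no `ℂ`-linear exact (= triangulated)
fully faithful functor `Ku(f) ⥤ D^b(coh S)`. -/
def MainStatement : Prop :=
  ∃ Z : Set (MvPolynomial CubicMonomial ℂ), Z.Countable ∧
    (∀ P ∈ Z, P ≠ 0 ∧ ∃ d, P.IsHomogeneous d) ∧
    ∀ (f : Pol 5) (hf : f.IsHomogeneous 3), IsSmoothCubic f →
      (∀ P ∈ Z, eval (fun m : CubicMonomial => f.coeff m.1) P ≠ 0) →
      ∀ S : ProjData, IsSmoothSurface S → ¬ Embeds f hf S

set_option backward.isDefEq.respectTransparency false in
theorem main_of_final (h : FinalStatement) : MainStatement := h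

end H24.KuS
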