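import Pool.Agent.H24.Ku.GradedModules

/-!
# The Kuznetsov component of a cubic fourfold, smooth projective surfaces, the final statement
-/

open CategoryTheory CategoryTheory.Limits MvPolynomial

noncomputable section

namespace H24.Ku

example (X : ProjData) : Preadditive (Db X) := inferInstance
example (X : ProjData) : Linear ℂ (Db X) := inferInstance
example (X : ProjData) : HasShift (Db X) ℤ := inferInstance
example (X : ProjData) : Pretriangulated (Db X) := inferInstance
example (X : ProjData) : IsTriangulated (Db X) := inferInstance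

/-- `X` is a smooth projective surface: the homogeneous coordinate ring `A` is a domain of Krull
dimension `3`, and the local ring of `A` at every prime ideal which does not contain all
coordinates is regular. -/
structure IsSmoothSurface (X : ProjData) : Prop where
  prime : X.I.IsPrime
  dim : ringKrullDim X.A = 3
  regular : ∀ (p : Ideal X.A) [p.IsPrime],
    (∃ i, (Ideal.Quotient.mk X.I (MvPolynomial.X i) : X.A) ∉ p) →
      IsRegularLocalRing (Localization.AtPrime p)

/-- The cubic hypersurface `f = 0` in `ℙ⁵`. -/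
def cubic (f : Pol 5) (hf : f.IsHomogeneous 3) : ProjData where
  N := 5
  I := Ideal.span {f}
  homogeneous := by
    intro p hp n
    obtain ⟨q, rfl⟩ := Ideal.mem_span_singleton'.1 hp
    rw [← sum_homogeneousComponent q, Finset.sum_mul, map_sum]
    refine Ideal.sum_mem _ fun i _ => ?_
    rw [homogeneousComponent_of_mem ((homogeneousComponent_isHomogeneous i q).mul hf)]
    split_ifs
    · exact Ideal.mul_mem_left _ _ (Ideal.mem_span_singleton_self f)
    · exact Ideal.zero_mem _

/-- The Kuznetsov component `Ku(X)` of the cubic fourfold `X = {f = 0}`: the full subcategory of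
`D^b(coh X)` of the objects `E` such that `Hom(𝒪(i), E[n]) = 0` for `i = 0, 1, 2` and all `n`. -/
def kuProp (f : Pol 5) (hf : f.IsHomogeneous 3) : ObjectProperty (Db (cubic f hf)) :=
  fun E => ∀ i : ℤ, 0 ≤ i → i ≤ 2 → ∀ (n : ℤ) (φ : ODb (cubic f hf) i ⟶ E⟦n⟧), φ = 0

instance (f : Pol 5) (hf : f.IsHomogeneous 3) : (kuProp f hf).IsClosedUnderIsomorphisms where
  of_iso {E E'} e hE i h0 h2 n φ := by
    have := hE i h0 h2 n (φ ≫ e.inv⟦n⟧')
    rw [← cancel_mono (e.inv⟦n⟧'), this, zero_comp]

open Pretriangulated ZeroObject in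
instance (f : Pol 5) (hf : f.IsHomogeneous 3) : (kuProp f hf).IsTriangulated where
  exists_zero := ⟨0, isZero_zero _, fun i _ _ n φ =>
    ((shiftFunctor (Db (cubic f hf)) n).map_isZero (isZero_zero _)).eq_of_tgt _ _⟩
  isStableUnderShiftBy m := ⟨fun E hE i h0 h2 n φ => by
    have := hE i h0 h2 (m + n) (φ ≫ (shiftFunctorAdd (Db (cubic f hf)) m n).inv.app E)
    rw [← cancel_mono ((shiftFunctorAdd (Db (cubic f hf)) m n).inv.app E), this, zero_comp]⟩
  toIsTriangulatedClosed₂ := .mk' fun T hT h1 h3 i h0 h2 n φ => by
    obtain ⟨ψ, hψ⟩ := Triangle.coyoneda_exact₂ _ (Triangle.shift_distinguished T hT n) φ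
      (h3 i h0 h2 n _)
    have hψ0 : ψ = 0 := h1 i h0 h2 n ψ
    subst hψ0
    exact hψ.trans zero_comp

/-- The Kuznetsov component of a cubic fourfold. -/
abbrev KuComp (f : Pol 5) (hf : f.IsHomogeneous 3) : Type 1 := (kuProp f hf).FullSubcategory

example (f : Pol 5) (hf : f.IsHomogeneous 3) : Pretriangulated (KuComp f hf) := inferInstance

/-- The cubic form `f` in six variables has no singular point. -/
def IsSmoothCubic (f : Pol 5) : Prop :=
  ∀ a : Fin 6 → ℂ, (∀ i, eval a (pderiv i f) = 0) → a = 0

/-- The exponents of the cubic monomials in six variables. -/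
abbrev CubicMonomial : Type := {m : Fin 6 →₀ ℕ // m.degree = 3}

/-- The final statement: there are countably many nonzero forms `P` in the `56` coefficients of a
cubic form in six variables such that for every smooth cubic form `f` at which none of the `P`
vanishes and every smooth projective surface `S` there is no `ℂ`-linear exact (= triangulated)
fully faithful functor `Ku(f) ⥤ D^b(coh S)`. -/
def FinalStatement : Prop :=
  ∃ Z : Set (MvPolynomial CubicMonomial ℂ), Z.Countable ∧
    (∀ P ∈ Z, P ≠ 0 ∧ ∃ d, P.IsHomogeneous d) ∧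
    ∀ (f : Pol 5) (hf : f.IsHomogeneous 3), IsSmoothCubic f →
      (∀ P ∈ Z, eval (fun m : CubicMonomial => f.coeff m.1) P ≠ 0) →
      ∀ S : ProjData, IsSmoothSurface S →
        ¬ ∃ (F : KuComp f hf ⥤ Db S) (_ : F.CommShift ℤ),
          F.IsTriangulated ∧ F.Linear ℂ ∧ F.Full ∧ F.Faithful

end H24.Ku
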