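import Pool.Agent.H24.Ku.Final
import Pool.Agent.H63.KH.Final
import Pool.Agent.H40.KuS.Facts

/-!
# The surface side
-/

namespace H24.Ku

theorem sSide : SSide := fun S hS =>
  Pool.Agent.H63.KH.surfaceAx_Db (X := S) hS (H40.KuS.cohFacts hS)

end H24.Ku
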