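import Pool.Agent.H24.Ku.Free

/-!
# Twists of graded modules and multiplication by homogeneous elements
-/

open CategoryTheory CategoryTheory.Limits MvPolynomial

noncomputable section

namespace H24.Ku

variable (X : ProjData)

variable {X} in
lemma mem_piece_congr {d e : ℤ} {a : X.A} (h : d = e) (ha : a ∈ X.piece d) : a ∈ X.piece e :=
  h ▸ ha

/-- The autoequivalence `n ↦ n + d` of `Deg X`. -/
def degShift (d : ℤ) : Deg X ⥤ Deg X where
  obj m := ⟨m.deg + d⟩
  map {m n} a := ⟨a.1, mem_piece_congr (add_sub_add_right_eq_sub n.deg m.deg d).symm a.2⟩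
  map_id _ := rfl
  map_comp _ _ := rfl

lemma degShift_map_val (d : ℤ) {m n : Deg X} (a : m ⟶ n) : ((degShift X d).map a).1 = a.1 := rfl

lemma eqToHom_val {m n : Deg X} (h : m = n) : (eqToHom h).1 = (1 : X.A) := by
  subst h
  rfl

lemma comp_val {m n l : Deg X} (a : m ⟶ n) (b : n ⟶ l) : (a ≫ b).1 = a.1 * b.1 := rfl

instance (d : ℤ) : (degShift X d).Additive where
  map_add := rfl

instance (d : ℤ) : (degShift X d).Linear ℂ where
  map_smul _ _ := rfl

/-- Shifting by `d` and then by `e` is shifting by `f = d + e`. -/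
def degShiftAdd (d e f : ℤ) (h : d + e = f) : degShift X d ⋙ degShift X e ≅ degShift X f :=
  NatIso.ofComponents (fun m => eqToIso (by
      change (⟨m.deg + d + e⟩ : Deg X) = ⟨m.deg + f⟩
      rw [add_assoc, h]))
    (fun a => Subtype.ext (by
      rw [comp_val, comp_val, eqToIso.hom, eqToIso.hom, eqToHom_val, eqToHom_val, mul_one, one_mul]
      rfl))

/-- Shifting by `0` is the identity. -/
def degShiftZero : degShift X 0 ≅ 𝟭 (Deg X) :=
  NatIso.ofComponents (fun m => eqToIso (by
      change (⟨m.deg + 0⟩ : Deg X) = m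
      rw [add_zero]))
    (fun a => Subtype.ext (by
      rw [comp_val, comp_val, eqToIso.hom, eqToIso.hom, eqToHom_val, eqToHom_val, mul_one, one_mul]
      rfl))

/-- Multiplication by a homogeneous element `s` of degree `d`, as a natural transformation. -/
def degMul (d : ℤ) (s : X.piece d) : 𝟭 (Deg X) ⟶ degShift X d where
  app m := (⟨s.1, mem_piece_congr (add_sub_cancel_left m.deg d).symm s.2⟩ : m ⟶ ⟨m.deg + d⟩)
  naturality _ _ a := Subtype.ext (mul_comm a.1 s.1)

lemma degMul_app_val (d : ℤ) (s : X.piece d) (m : Deg X) : ((degMul X d s).app m).1 = s.1 := rfl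

variable {X}

lemma fg_comp_degShift (d : ℤ) {M : Deg X ⥤ ModuleCat.{0} ℂ} [M.Additive] (h : FG X M) :
    FG X (degShift X d ⋙ M) := by
  obtain ⟨k, g, x, hx⟩ := h
  have hg : ∀ i, (⟨(g i).deg - d + d⟩ : Deg X) = g i := fun i => by
    cases h : g i
    simp
  refine ⟨k, fun i => ⟨(g i).deg - d⟩, fun i => (M.map (eqToHom (hg i).symm)).hom (x i),
    fun n y => ?_⟩
  obtain ⟨a, ha⟩ := hx ⟨n.deg + d⟩ y
  refine ⟨fun i => ⟨(a i).1, mem_piece_congr (d := (n.deg + d) - (g i).deg)
    (e := n.deg - ((g i).deg - d)) (by ring) (a i).2⟩, ?_⟩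
  · rw [ha]
    refine Finset.sum_congr rfl fun i _ => ?_
    change _ = (M.map _).hom ((M.map (eqToHom (hg i).symm)).hom (x i))
    rw [← ModuleCat.comp_apply, ← M.map_comp]
    congr 3
    refine Subtype.ext ?_
    rw [comp_val, eqToHom_val, one_mul]
    rfl

lemma grProp_comp_degShift (d : ℤ) {M : Deg X ⥤ ModuleCat.{0} ℂ} (h : grProp X M) :
    grProp X (degShift X d ⋙ M) := by
  have := h.1
  have := h.2.1
  exact ⟨inferInstance, inferInstance, fg_comp_degShift d h.2.2⟩

variable (X)

/-- The twist functor `M ↦ M(d)`, `M(d)_n = M_{n+d}`. -/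
def twist (d : ℤ) : Gr X ⥤ Gr X :=
  (grProp X).lift ((grProp X).ι ⋙ (Functor.whiskeringLeft _ _ _).obj (degShift X d))
    (fun M => grProp_comp_degShift d M.property)

instance (d : ℤ) : (twist X d).Additive where
  map_add := rfl

instance (d : ℤ) : (twist X d).Linear ℂ where
  map_smul _ _ := rfl

lemma twist_obj_obj (d : ℤ) (M : Gr X) (n : Deg X) :
    ((twist X d).obj M).obj.obj n = M.obj.obj ⟨n.deg + d⟩ := rfl

/-- `M(d)(e) = M(f)` if `d + e = f`. -/
def twistAdd (d e f : ℤ) (h : d + e = f) : twist X d ⋙ twist X e ≅ twist X f :=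
  NatIso.ofComponents (fun M => (grProp X).isoMk
    (Functor.isoWhiskerRight (degShiftAdd X e d f (by omega)) M.obj)) (fun g => by
      apply ObjectProperty.hom_ext
      ext n z
      exact (gr_naturality g _ _).symm)

/-- `M(0) = M`. -/
def twistZero : twist X 0 ≅ 𝟭 (Gr X) :=
  NatIso.ofComponents (fun M => (grProp X).isoMk
    (Functor.isoWhiskerRight (degShiftZero X) M.obj ≪≫ Functor.leftUnitor _)) (fun g => by
      apply ObjectProperty.hom_ext
      ext n z
      exact (gr_naturality g _ _).symm)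

/-- The twist by `d` is an equivalence of categories. -/
def twistEquiv (d : ℤ) : Gr X ≌ Gr X :=
  CategoryTheory.Equivalence.mk (twist X d) (twist X (-d))
    ((twistAdd X d (-d) 0 (by simp)) ≪≫ twistZero X).symm
    ((twistAdd X (-d) d 0 (by simp)) ≪≫ twistZero X)

instance (d : ℤ) : (twist X d).IsEquivalence := (twistEquiv X d).isEquivalence_functor

/-- Multiplication by the homogeneous element `s` of degree `d`: `M ⟶ M(d)`. -/
def mulMap (d : ℤ) (s : X.piece d) : 𝟭 (Gr X) ⟶ twist X d where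
  app M := ObjectProperty.homMk ((Functor.leftUnitor _).inv ≫
    Functor.whiskerRight (degMul X d s) M.obj)
  naturality M N g := by
    apply ObjectProperty.hom_ext
    ext n z
    exact (gr_naturality g _ _).symm

lemma mulMap_apply (d : ℤ) (s : X.piece d) (M : Gr X) (n : Deg X) (z : M.obj.obj n) :
    (((mulMap X d s).app M).hom.app n).hom z = (M.obj.map ((degMul X d s).app n)).hom z := rfl

/-- The twist of a free module: `A(n)(d) = A(n + d)`. -/
def twistFree (n d e : ℤ) (h : n + d = e) : (twist X d).obj (free X n) ≅ free X e := by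
  refine (grProp X).isoMk (NatIso.ofComponents (fun m => LinearEquiv.toModuleIso
    { toFun := fun (a : (⟨-n⟩ : Deg X) ⟶ ⟨m.deg + d⟩) => (⟨a.1, mem_piece_congr
        (d := (m.deg + d) - (-n)) (e := m.deg - (-e)) (by omega) a.2⟩ : (⟨-e⟩ : Deg X) ⟶ m)
      invFun := fun (a : (⟨-e⟩ : Deg X) ⟶ m) => (⟨a.1, mem_piece_congr
        (d := m.deg - (-e)) (e := (m.deg + d) - (-n)) (by omega) a.2⟩ :
          (⟨-n⟩ : Deg X) ⟶ ⟨m.deg + d⟩)
      map_add' := fun _ _ => rfl
      map_smul' := fun _ _ => rfl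
      left_inv := fun _ => rfl
      right_inv := fun _ => rfl }) (fun b => ?_))
  ext a
  rfl

end H24.Ku
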